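import Mathlib
import Pool.Agent.Helper47.MA.Proof

set_option autoImplicit false

/-!
The largest group induced on the seven conics of a proper Mathon `8`-arc is cyclic of order `7`,
and it occurs in `PG(2, 2^h)` exactly when `7 ∣ h`.
-/

namespace Pool.Agent.Results.MP_df3b73_co.LargestInducedGroup

open scoped LinearAlgebra.Projectivization
open Pool.Agent.Results.MP_df3b73_co.InducedGroupProper
open Pool.Agent.Helper47.MA

/-- (1) For every finite field `K` of characteristic `2` and every proper Mathon `8`-arc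
`p(arc 𝒞)` in `PG(2, K)` the induced group is cyclic, its order divides `h = [K : GF(2)]` and is
one of `1, 2, 3, 4, 7`; it consists of automorphisms of the Fano plane.
(2) A proper Mathon `8`-arc whose induced group has order `7` exists in `PG(2, K)` if and only if
`7` divides `h`. -/
theorem result :
    (∀ (K : Type) [Field K] [Fintype K] [Algebra (ZMod 2) K] (𝒞 : Finset (Conic K))
      (p : Collineation K), IsMathonFamily 𝒞 → ¬ IsDennistonType (p.act '' arc 𝒞) →
      IsCyclic (inducedGroup 𝒞 p) ∧
      Nat.card (inducedGroup 𝒞 p) ∣ Module.finrank (ZMod 2) K ∧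
      Nat.card (inducedGroup 𝒞 p) ∈ ({1, 2, 3, 4, 7} : Finset ℕ) ∧
      ∀ π ∈ inducedGroup 𝒞 p, IsFanoAut 𝒞 π) ∧
    (∀ (K : Type) [Field K] [Fintype K] [Algebra (ZMod 2) K],
      (∃ (𝒞 : Finset (Conic K)) (p : Collineation K), IsMathonFamily 𝒞 ∧
        ¬ IsDennistonType (p.act '' arc 𝒞) ∧ Nat.card (inducedGroup 𝒞 p) = 7) ↔
      7 ∣ Module.finrank (ZMod 2) K) := by
  constructor
  · intro K _ _ _ 𝒞 p h𝒞 hprop
    obtain ⟨h1, h2⟩ := cyclic_and_dvd h𝒞 p hprop
    exact ⟨h1, h2, card_mem h𝒞 p h1, isFanoAut_of_mem h𝒞 p⟩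
  · intro K _ _ _
    constructor
    · rintro ⟨𝒞, p, h𝒞, hprop, h7⟩
      rw [← h7]
      exact (cyclic_and_dvd h𝒞 p hprop).2
    · rintro ⟨m, hm⟩
      obtain ⟨σ, p, q, l, hσ7, hp, hq, hl, hl0, htr, hno⟩ := exists_data m hm
      have h𝒞 := isMathon_fam σ p q l hp hq hl hl0 htr
      have hK : 32 < Fintype.card K := by
        have hm0 : 0 < m := by
          have h1 : 0 < Module.finrank (ZMod 2) K := Module.finrank_pos
          omega
        rw [Module.card_eq_pow_finrank (K := ZMod 2) (V := K), ZMod.card, hm]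
        calc 32 < 2 ^ 7 := by norm_num
          _ ≤ 2 ^ (7 * m) := Nat.pow_le_pow_right (by norm_num) (by omega)
      have hprop : ¬ IsDennistonType ((idC : Collineation K).act '' arc (fam σ p q l)) := by
        rw [id_image]
        intro h
        exact hno (fam_denniston σ p q l hp hq hl hl0 htr hK h)
      refine ⟨fam σ p q l, idC, h𝒞, hprop, ?_⟩
      have h7 := order_seven σ p q l hp hq hl hl0 hσ7
      have hmem := card_mem h𝒞 idC (cyclic_and_dvd h𝒞 idC hprop).1
      simp only [Finset.mem_insert, Finset.mem_singleton] at hmem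
      rcases hmem with h | h | h | h | h <;> rw [h] at h7 ⊢ <;> revert h7 <;> decide

end Pool.Agent.Results.MP_df3b73_co.LargestInducedGroup
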